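import Mathlib

set_option autoImplicit false

namespace Pool.Agent.H.MP_e7dc11_co
open Equiv

abbrev Z := Fin 27
abbrev Fl := Z × Fin 3

def B1 (v : Z) : List Z :=
  ([[3, 4, 2], [5, 4, 0], [2, 1, 0], [0, 6, 13], [3, 1, 5], [1, 4, 20],
    [3, 7, 9], [7, 8, 10], [8, 9, 11], [9, 10, 12], [10, 11, 6], [11, 12, 7],
    [12, 6, 8], [5, 14, 16], [14, 15, 17], [15, 16, 18], [16, 17, 19], [17, 18, 13],
    [18, 19, 14], [19, 13, 15], [2, 21, 23], [21, 22, 24], [22, 23, 25], [23, 24, 26],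
    [24, 25, 20], [25, 26, 21], [26, 20, 22]] : List (List Z)).getD v.val []

def B2 (v : Z) : List Z :=
  ([[3, 2, 4], [5, 4, 0], [2, 0, 1], [0, 6, 13], [3, 1, 5], [1, 4, 20],
    [3, 7, 9], [7, 8, 10], [8, 9, 11], [9, 10, 12], [10, 11, 6], [11, 12, 7],
    [12, 6, 8], [5, 14, 16], [14, 15, 17], [15, 16, 18], [16, 17, 19], [17, 18, 13],
    [18, 19, 14], [19, 13, 15], [2, 21, 23], [21, 22, 24], [22, 23, 25], [23, 24, 26],
    [24, 25, 20], [25, 26, 21], [26, 20, 22]] : List (List Z)).getD v.val []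

def rot (v : Z) : List Z :=
  ([[4, 5, 1, 2, 13, 6], [2, 0, 20, 4, 3, 5], [4, 3, 23, 21, 0, 1], [2, 4, 5, 1, 9, 7],
    [3, 2, 1, 20, 5, 0], [0, 4, 16, 14, 1, 3], [0, 13, 11, 10, 12, 8], [3, 9, 12, 11, 10, 8],
    [7, 10, 6, 12, 11, 9], [7, 3, 8, 11, 12, 10], [8, 7, 6, 11, 9, 12], [9, 8, 7, 12, 10, 6],
    [10, 9, 8, 6, 11, 7], [6, 0, 19, 15, 18, 17], [5, 16, 19, 18, 17, 15], [14, 17, 13, 19, 18, 16],
    [14, 5, 19, 17, 15, 18], [15, 14, 16, 19, 13, 18], [16, 15, 17, 13, 14, 19], [17, 16, 18, 14, 15, 13],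
    [4, 1, 26, 22, 25, 24], [2, 23, 26, 25, 24, 22], [21, 24, 25, 23, 20, 26], [21, 2, 26, 24, 22, 25],
    [22, 21, 20, 25, 23, 26], [23, 22, 24, 20, 21, 26], [24, 23, 22, 20, 25, 21]] : List (List Z)).getD v.val []

def ta (v : Z) (i : Fin 3) : Z :=
  (([[4, 2, 13], [0, 3, 20], [3, 1, 23], [4, 5, 9], [2, 5, 1], [0, 1, 16],
    [0, 11, 12], [3, 10, 12], [7, 11, 6], [7, 8, 12], [8, 9, 6], [9, 10, 7],
    [10, 11, 8], [6, 18, 19], [5, 17, 19], [14, 18, 13], [14, 15, 19], [15, 16, 13],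
    [16, 17, 14], [17, 18, 15], [4, 25, 26], [2, 24, 26], [21, 25, 20], [21, 22, 26],
    [22, 23, 20], [23, 24, 21], [24, 25, 22]] : List (List (Z))).getD v.val []).getD i.val 0

def tb (v : Z) (i : Fin 3) : Z :=
  (([[5, 1, 6], [2, 5, 4], [4, 0, 21], [2, 1, 7], [3, 0, 20], [4, 3, 14],
    [13, 10, 8], [9, 8, 11], [10, 9, 12], [3, 11, 10], [7, 12, 11], [8, 6, 12],
    [9, 7, 6], [0, 17, 15], [16, 15, 18], [17, 16, 19], [5, 18, 17], [14, 19, 18],
    [15, 13, 19], [16, 14, 13], [1, 24, 22], [23, 22, 25], [24, 23, 26], [2, 25, 24],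
    [21, 26, 25], [22, 20, 26], [23, 21, 20]] : List (List (Z))).getD v.val []).getD i.val 0

def ix (v : Z) (i : Fin 3) : Fin 3 :=
  (([[1, 1, 0], [1, 1, 0], [0, 0, 0], [0, 1, 0], [0, 0, 2], [0, 1, 0],
    [2, 1, 2], [2, 0, 1], [1, 0, 2], [0, 1, 0], [0, 2, 1], [1, 2, 2],
    [1, 2, 2], [0, 1, 2], [2, 0, 1], [1, 0, 2], [0, 1, 0], [0, 2, 1],
    [1, 2, 2], [1, 2, 2], [2, 1, 2], [2, 0, 1], [1, 0, 2], [0, 1, 0],
    [0, 2, 1], [1, 2, 2], [1, 2, 2]] : List (List (Fin 3))).getD v.val []).getD i.val 0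

def Inc (p l : Z) : Prop := p ∈ B1 l

instance (p l : Z) : Decidable (Inc p l) := by unfold Inc; infer_instance

def o1 (l : Z) : Perm Z := (B1 l).formPerm
def o2 (l : Z) : Perm Z := (B2 l).formPerm
def r1 (v : Z) : Perm Z := (rot v).formPerm

theorem cfg1 : ∀ l, (Finset.univ.filter fun p => Inc p l).card = 3 := by decide +kernel
theorem cfg2 : ∀ p, (Finset.univ.filter fun l => Inc p l).card = 3 := by decide +kernel
theorem cfg3 : ∀ p q, p ≠ q → (Finset.univ.filter fun l => Inc p l ∧ Inc q l).card ≤ 1 := by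
  decide +kernel
theorem conn1 : ∀ p : Z, p ≠ 0 → ∃ q l, Inc q l ∧ Inc p l ∧
    (q < p ∨ ∃ q' l', Inc q' l' ∧ Inc q l' ∧ q' < p) := by decide +kernel

theorem conn (p q : Z) : Relation.EqvGen (fun a b => ∃ l, Inc a l ∧ Inc b l) p q := by
  have h1 : ∀ p, Relation.EqvGen (fun a b => ∃ l, Inc a l ∧ Inc b l) 0 p := fun p => by
    induction p using WellFoundedLT.induction with
    | ind p ih =>
      by_cases h : p = 0
      · subst h; exact .refl _
      · obtain ⟨q, l, a, b, c | ⟨q', l', x, y, c⟩⟩ := conn1 p h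
        · exact .trans _ _ _ (ih q c) (.rel _ _ ⟨l, a, b⟩)
        · exact .trans _ _ _ (.trans _ _ _ (ih q' c) (.rel _ _ ⟨l', x, y⟩)) (.rel _ _ ⟨l, a, b⟩)
  exact .trans _ _ _ (.symm _ _ (h1 p)) (h1 q)

theorem nd : ∀ l, (B1 l).Nodup ∧ (B2 l).Nodup ∧ (rot l).Nodup := by decide +kernel
theorem B12 : ∀ p l, p ∈ B2 l ↔ Inc p l := by decide +kernel
theorem rot_mem : ∀ v u, u ∈ rot v ↔ v ≠ u ∧ ∃ l, Inc v l ∧ Inc u l := by decide +kernel

theorem ori1 (l : Z) : (o1 l).IsCycleOn {p | Inc p l} := (nd l).1.isCycleOn_formPerm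
theorem ori2 (l : Z) : (o2 l).IsCycleOn {p | Inc p l} := by
  have := (nd l).2.1.isCycleOn_formPerm
  simp only [B12] at this
  exact this
theorem rot1 (v : Z) : (r1 v).IsCycleOn {u | v ≠ u ∧ ∃ l, Inc v l ∧ Inc u l} := by
  have := (nd v).2.2.isCycleOn_formPerm
  simp only [rot_mem] at this
  exact this

theorem face1 : ∀ l u, Inc u l → r1 (o1 l u) u = o1 l (o1 l u) := by decide +kernel

def fc (ρ : Z → Perm Z) (d : Z × Z) : Z × Z := (d.2, ρ d.2 d.1)

theorem orb1 : (fc r1)^[81] (5, 0) = (5, 0) ∧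
    ∀ l u, Inc u l → (o1 l u, u) ∈ List.iterate (fc r1) (5, 0) 81 := by decide +kernel

theorem one1 (l u l' u' : Z) (h : Inc u l) (h' : Inc u' l') :
    ∃ n, (fc r1)^[n] (o1 l u, u) = (o1 l' u', u') := by
  obtain ⟨i, hi, e⟩ := List.mem_iterate.1 (orb1.2 l u h)
  obtain ⟨j, -, e'⟩ := List.mem_iterate.1 (orb1.2 l' u' h')
  refine ⟨j + (81 - i), ?_⟩
  rw [e, e', ← Function.iterate_add_apply, add_assoc, Nat.sub_add_cancel hi.le,
    Function.iterate_add_apply, orb1.1]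

def stp (b : Bool) : Fin 3 := if b then 1 else 2
def ps (b : Bool) (x : Fl) : Fl := (ta x.1 (x.2 + stp b), ix x.1 (x.2 + stp b))
def D (x : Fl) : Z × Z := (tb x.1 x.2, x.1)

theorem D_inj : Function.Injective D := by decide +kernel
theorem D_ps : ∀ b x, D (ps b x) = (x.1, ta x.1 (x.2 + stp b)) := by decide +kernel
theorem D_ex : ∀ x, ∃ l, Inc x.1 l ∧ D x = (o2 l x.1, x.1) := by decide +kernel
theorem ab_ex : ∀ v i, ∃ l, Inc (ta v i) l ∧ o2 l (ta v i) = v ∧ o2 l v = tb v i := by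
  decide +kernel
theorem nb : ∀ v u, (v ≠ u ∧ ∃ l, Inc v l ∧ Inc u l) ↔ ∃ i, u = ta v i ∨ u = tb v i := by
  decide +kernel
theorem ab_ne : ∀ v i j, ta v i ≠ tb v j ∧ (ta v i = ta v j → i = j) ∧ (tb v i = tb v j → i = j) := by
  decide +kernel
theorem der : ∀ τ : Fin 3 → Fin 3, Function.Injective τ → (∀ i, τ i ≠ i) →
    ∃ b, ∀ i, τ i = i + stp b := by decide +kernel

theorem bit (π : Perm Z) (v : Z) (h : π.IsCycleOn {u | v ≠ u ∧ ∃ l, Inc v l ∧ Inc u l})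
    (hab : ∀ i, π (ta v i) = tb v i) : ∃ b, ∀ i, π (tb v i) = ta v (i + stp b) := by
  have mem : ∀ i, ta v i ∈ {u | v ≠ u ∧ ∃ l, Inc v l ∧ Inc u l} ∧
      tb v i ∈ {u | v ≠ u ∧ ∃ l, Inc v l ∧ Inc u l} := fun i =>
    ⟨(nb _ _).2 ⟨i, .inl rfl⟩, (nb _ _).2 ⟨i, .inr rfl⟩⟩
  have h1 : ∀ i, ∃ j, π (tb v i) = ta v j := fun i => by
    obtain ⟨j, e | e⟩ := (nb _ _).1 (h.1.mapsTo (mem i).2)
    · exact ⟨j, e⟩
    · rw [← hab j] at e
      exact absurd (π.injective e).symm (ab_ne v j i).1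
  choose τ hτ using h1
  obtain ⟨b, hb⟩ := der τ (fun i j e => (ab_ne v i j).2.2 (π.injective (by rw [hτ, hτ, e])))
    fun i e => by
      obtain ⟨n, hn⟩ := h.exists_pow_eq' (Set.toFinite _) (mem i).1 (mem (i + 1)).1
      have : ∀ n : ℕ, (π ^ n) (ta v i) = ta v i ∨ (π ^ n) (ta v i) = tb v i := fun n => by
        induction n with
        | zero => exact .inl rfl
        | succ n ih =>
          rw [pow_succ', Perm.mul_apply]
          rcases ih with ih | ih <;> rw [ih]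
          · exact .inr (hab i)
          · exact .inl (by rw [hτ, e])
      rcases this n with e' | e' <;> rw [hn] at e'
      · simpa using (ab_ne v _ _).2.1 e'
      · exact (ab_ne v _ _).1 e'
  exact ⟨b, fun i => by rw [hτ, hb]⟩

def gd (v : Z) : Fin 3 := if v.val < 13 then 0 else if v.val < 20 then 1 else 2
def eE : Fin 3 → Fl := ![(9, 0), (16, 0), (23, 0)]
def eF : Fin 3 → Fl := ![(6, 0), (13, 0), (20, 0)]
def xE : Fin 3 → Fl := ![(3, 2), (5, 2), (2, 2)]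
def xF : Fin 3 → Fl := ![(0, 2), (6, 0), (4, 2)]
def loc (v : Z) : Fin 7 := ⟨(v.val + 1) % 7, Nat.mod_lt _ (by norm_num)⟩
def gv (g : Fin 3) (i : Fin 7) : Z := ⟨6 + 7 * g.val + i.val, by omega⟩
def inG (g : Fin 3) (x : Fl) : Bool := decide (6 ≤ x.1.val) && decide (gd x.1 = g)

def walk (t : Fin 7 → Bool) (g : Fin 3) : ℕ → Fl → List Fl
  | 0, _ => []
  | n + 1, x => if inG g x then x :: walk t g n (ps (t (loc x.1)) x) else []

def rest (t : Fin 7 → Bool) (g : Fin 3) : List Fl :=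
  ((List.finRange 7).flatMap fun i => (List.finRange 3).map fun k => (gv g i, k)).filter
    fun x => x ∉ walk t g 21 (eE g) ∧ x ∉ walk t g 21 (eF g)

def Good (t : Fin 7 → Bool) (g : Fin 3) (S : List Fl) : Prop :=
  eE g ∈ S ∧ eF g ∉ S ∧ ∀ i k, if inG g (ps (t i) (gv g i, k)) then
    (ps (t i) (gv g i, k) ∈ S ↔ (gv g i, k) ∈ S)
    else ps (t i) (gv g i, k) = if (gv g i, k) ∈ S then xE g else xF g

instance (t : Fin 7 → Bool) (g : Fin 3) (S : List Fl) : Decidable (Good t g S) := by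
  unfold Good; infer_instance

def Bad (t : Fin 7 → Bool) (g : Fin 3) (C : List Fl) : Prop :=
  C ≠ [] ∧ ∀ x ∈ C, inG g x = true ∧ ps (t (loc x.1)) x ∈ C

instance (t : Fin 7 → Bool) (g : Fin 3) (S : List Fl) : Decidable (Bad t g S) := by
  unfold Bad; infer_instance

theorem gad0 : ∀ g b0 b1 b2 b3 b4 b5 b6,
    Good ![b0, b1, b2, b3, b4, b5, b6] g (walk ![b0, b1, b2, b3, b4, b5, b6] g 21 (eE g)) ∨
      Bad ![b0, b1, b2, b3, b4, b5, b6] g (rest ![b0, b1, b2, b3, b4, b5, b6] g) := by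
  decide +kernel

theorem gad (g : Fin 3) (t : Fin 7 → Bool) : (∃ S, Good t g S) ∨ ∃ C, Bad t g C := by
  have e : ![t 0, t 1, t 2, t 3, t 4, t 5, t 6] = t := by
    ext i; fin_cases i <;> rfl
  have := gad0 g (t 0) (t 1) (t 2) (t 3) (t 4) (t 5) (t 6)
  rw [e] at this
  exact this.imp (fun h => ⟨_, h⟩) fun h => ⟨_, h⟩

def lo6 (v : Z) : Fin 6 := ⟨v.val % 6, Nat.mod_lt _ (by norm_num)⟩
def pR (t : Fin 6 → Bool) (x : Fl) : Fl :=
  if x.1.val < 6 then ps (t (lo6 x.1)) x else if x = eE (gd x.1) then xE (gd x.1) else xF (gd x.1)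

theorem red0 : ∀ b0 b1 b2 b3 b4 b5, (pR ![b0, b1, b2, b3, b4, b5])^[24] (0, 0) ∈
      List.iterate (pR ![b0, b1, b2, b3, b4, b5]) (0, 0) 24 ∧
    ∃ y : Fl, (y.1.val < 6 ∨ y = eE (gd y.1) ∨ y = eF (gd y.1)) ∧
      y ∉ List.iterate (pR ![b0, b1, b2, b3, b4, b5]) (0, 0) 24 := by decide +kernel

def IsR (y : Fl) : Prop := y.1.val < 6 ∨ (6 ≤ y.1.val ∧ (y = eE (gd y.1) ∨ y = eF (gd y.1)))

instance (y : Fl) : Decidable (IsR y) := by unfold IsR; infer_instance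

theorem isR1 : ∀ b (x : Fl), x.1.val < 6 → IsR (ps b x) := by decide +kernel
theorem isR2 : ∀ g, IsR (xE g) ∧ IsR (xF g) ∧ 6 ≤ (eE g).1.val ∧ 6 ≤ (eF g).1.val ∧
    gd (eE g).1 = g ∧ gd (eF g).1 = g ∧ eF g ≠ eE g := by decide +kernel
theorem gv_loc : ∀ v : Z, 6 ≤ v.val → gv (gd v) (loc v) = v := by decide +kernel

theorem noorb (s : Z → Bool) (h : ∀ x y : Fl, ∃ n, (fun x => ps (s x.1) x)^[n] x = y) : False := by
  have cl : ∀ T : Fl → Prop, (∀ x, T x → T (ps (s x.1) x)) → ∀ x y, T x → T y := fun T hT x y hx => by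
    obtain ⟨n, rfl⟩ := h x y
    induction n with
    | zero => exact hx
    | succ n ih => rw [Function.iterate_succ_apply']; exact hT _ ih
  have inG' : ∀ g x, inG g x = true ↔ 6 ≤ x.1.val ∧ gd x.1 = g := fun g x => by simp [inG]
  have hg : ∀ g, ∃ S, Good (fun i => s (gv g i)) g S := fun g =>
    (gad g _).resolve_right fun ⟨C, h1, h2⟩ => by
      obtain ⟨x, hx⟩ := List.exists_mem_of_ne_nil C h1
      have := cl (· ∈ C) (fun x hx => by
        obtain ⟨a, b⟩ := h2 x hx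
        obtain ⟨c, rfl⟩ := (inG' _ _).1 a
        beta_reduce at b
        rwa [gv_loc _ c] at b) x (0, 0) hx
      simpa using ((inG' _ _).1 (h2 _ this).1).1
  choose S hS using hg
  let π : Fl → Fl := fun x =>
    if x.1.val < 6 then x else if x ∈ S (gd x.1) then eE (gd x.1) else eF (gd x.1)
  have πR : ∀ y, IsR y → π y = y := fun y hy => by
    rcases hy with hy | ⟨a, hy | hy⟩
    · exact if_pos hy
    · simp only [π]
      rw [if_neg (by omega), if_pos, ← hy]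
      rw [hy, (isR2 _).2.2.2.2.1]
      exact (hS _).1
    · simp only [π]
      rw [if_neg (by omega), if_neg, ← hy]
      rw [hy, (isR2 _).2.2.2.2.2.1]
      exact (hS _).2.1
  set t : Fin 6 → Bool := fun i => s ⟨i.val, by omega⟩ with ht
  have st : ∀ x, π (ps (s x.1) x) = π x ∨ π (ps (s x.1) x) = pR t (π x) := fun x => by
    by_cases hx : x.1.val < 6
    · right
      rw [πR _ (isR1 _ _ hx), πR x (.inl hx), pR, if_pos hx]
      congr 2
      exact Fin.ext (Nat.mod_eq_of_lt hx).symm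
    · have k := (hS (gd x.1)).2.2 (loc x.1) x.2
      beta_reduce at k
      rw [gv_loc _ (not_lt.1 hx), Prod.mk.eta] at k
      obtain ⟨r1, r2, r3, r4, r5, r6, r7⟩ := isR2 (gd x.1)
      split_ifs at k with k1 k2
      · left
        obtain ⟨c, d⟩ := (inG' _ _).1 k1
        simp only [π]
        rw [if_neg hx, if_neg (not_lt.2 c), d]
        exact if_congr k rfl rfl
      · right
        have : π x = eE (gd x.1) := by simp only [π]; rw [if_neg hx, if_pos k2]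
        rw [this, pR, if_neg (not_lt.2 r3), r5, if_pos rfl]
        exact (congrArg π k).trans (πR _ r1)
      · right
        have : π x = eF (gd x.1) := by simp only [π]; rw [if_neg hx, if_neg k2]
        rw [this, pR, if_neg (not_lt.2 r4), r6, if_neg r7]
        exact (congrArg π k).trans (πR _ r2)
  have e : ![t 0, t 1, t 2, t 3, t 4, t 5] = t := by
    ext i; fin_cases i <;> rfl
  have rd := red0 (t 0) (t 1) (t 2) (t 3) (t 4) (t 5)
  rw [e] at rd
  obtain ⟨a, y, hy, b⟩ := rd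
  have := cl (fun x => π x ∈ List.iterate (pR t) (0, 0) 24) (fun x hx => by
    rcases st x with k | k <;> rw [k]
    · exact hx
    · obtain ⟨i, hi, e⟩ := List.mem_iterate.1 hx
      rw [e, ← Function.iterate_succ_apply' (pR t)]
      rcases Nat.lt_or_ge (i + 1) 24 with c | c
      · exact List.mem_iterate.2 ⟨_, c, rfl⟩
      · obtain rfl : i = 23 := by omega
        exact a) (0, 0) y (by rw [πR _ (.inl (by decide))]; exact List.mem_iterate.2 ⟨0, by norm_num, rfl⟩)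
  rw [πR y (by
    by_cases c : y.1.val < 6
    · exact .inl c
    · exact .inr ⟨not_lt.1 c, hy.resolve_left c⟩)] at this
  exact b this

theorem no2 (ρ : Z → Perm Z) (h1 : ∀ v, (ρ v).IsCycleOn {u | v ≠ u ∧ ∃ l, Inc v l ∧ Inc u l})
    (h2 : ∀ l u, Inc u l → ρ (o2 l u) u = o2 l (o2 l u))
    (h3 : ∀ l u l' u', Inc u l → Inc u' l' → ∃ n, (fc ρ)^[n] (o2 l u, u) = (o2 l' u', u')) :
    False := by
  have hb := fun v => bit (ρ v) v (h1 v) fun i => by
    obtain ⟨l, a, b, c⟩ := ab_ex v i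
    have := h2 l _ a
    rwa [b, c] at this
  choose s hs using hb
  have st : ∀ x, fc ρ (D x) = D (ps (s x.1) x) := fun x => by rw [D_ps, ← hs]; rfl
  refine noorb s fun x y => ?_
  obtain ⟨l, a, b⟩ := D_ex x
  obtain ⟨l', a', b'⟩ := D_ex y
  obtain ⟨n, hn⟩ := h3 l _ l' _ a a'
  refine ⟨n, D_inj ?_⟩
  rw [b', ← hn, ← b]
  exact (Function.Semiconj.iterate_right (f := D) (fun x => (st x).symm) n x)

end Pool.Agent.H.MP_e7dc11_co
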